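import Pool.Agent.P8H15.RM.Stm

/-!
# Package MG: the martingale
-/

set_option autoImplicit false

namespace Pool.Agent.P8H75.RM

open Pool.Agent.P8H15.RM
open Finset MeasureTheory ProbabilityTheory Filter Topology
open scoped Classical ENNReal

/-- bounded continuous functions -/
def BC (g : ℝ → ℝ) : Prop := Continuous g ∧ ∃ C : ℝ, ∀ t, |g t| ≤ C

theorem BC.mul {f g : ℝ → ℝ} (hf : BC f) (hg : BC g) : BC (fun t => f t * g t) := by
  obtain ⟨hf, C, hC⟩ := hf
  obtain ⟨hg, C', hC'⟩ := hg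
  refine ⟨hf.mul hg, C * C', fun t => ?_⟩
  rw [abs_mul]
  exact mul_le_mul (hC t) (hC' t) (abs_nonneg _) ((abs_nonneg _).trans (hC t))

theorem BC.const (c : ℝ) : BC (fun _ => c) := ⟨continuous_const, |c|, fun _ => le_rfl⟩

theorem BC.integrable {g : ℝ → ℝ} (h : BC g) : Integrable (fun t => g t / (1 / 4 + t ^ 2)) := by
  obtain ⟨hc, C, hC⟩ := h
  refine Integrable.mono' ((integrable_inv_one_add_sq).const_mul (4 * C)) ?_ ?_
  · exact (hc.div (by fun_prop) (fun t => by positivity)).aestronglyMeasurable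
  · filter_upwards with t
    rw [Real.norm_eq_abs, abs_div, abs_of_pos (by positivity : 0 < 1 / 4 + t ^ 2)]
    have h0 : 0 ≤ C := (abs_nonneg _).trans (hC 0)
    rw [div_le_iff₀ (by positivity)]
    have h1 : C ≤ 4 * C * (1 + t ^ 2)⁻¹ * (1 / 4 + t ^ 2) := by
      have h2 : 4 * C * (1 + t ^ 2)⁻¹ * (1 / 4 + t ^ 2) =
          C + C * (3 * t ^ 2 * (1 + t ^ 2)⁻¹) := by
        field_simp
        ring
      rw [h2]
      have : 0 ≤ C * (3 * t ^ 2 * (1 + t ^ 2)⁻¹) := by positivity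
      linarith
    exact (hC t).trans h1

theorem pr_succ_prime {N : ℕ} (h : (N + 1).Prime) : pr (N + 1) = insert (N + 1) (pr N) := by
  ext q
  simp only [pr, mem_filter, mem_Icc, mem_insert]
  constructor
  · rintro ⟨⟨h1, h2⟩, h3⟩
    by_cases h4 : q = N + 1
    · exact Or.inl h4
    · exact Or.inr ⟨⟨h1, by omega⟩, h3⟩
  · rintro (rfl | ⟨⟨h1, h2⟩, h3⟩)
    · exact ⟨⟨by omega, le_rfl⟩, h⟩
    · exact ⟨⟨h1, by omega⟩, h3⟩

theorem pr_succ_not {N : ℕ} (h : ¬ (N + 1).Prime) : pr (N + 1) = pr N := by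
  ext q
  simp only [pr, mem_filter, mem_Icc]
  constructor
  · rintro ⟨⟨h1, h2⟩, h3⟩
    refine ⟨⟨h1, ?_⟩, h3⟩
    by_contra h4
    have : q = N + 1 := by omega
    subst this
    exact h h3
  · rintro ⟨⟨h1, h2⟩, h3⟩
    exact ⟨⟨h1, by omega⟩, h3⟩

theorem notMem_pr (N : ℕ) : N + 1 ∉ pr N := by
  simp [pr]

/-- `2 q^(-1/2) cos (t log q)` -/
noncomputable def cc (q : ℕ) (t : ℝ) : ℝ := 2 * (q : ℝ) ^ (-(1 / 2 : ℝ)) * Real.cos (t * Real.log q)

theorem BC_cc (q : ℕ) : BC (cc q) := by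
  refine ⟨by unfold cc; fun_prop, 2 * (q : ℝ) ^ (-(1 / 2 : ℝ)), fun t => ?_⟩
  unfold cc
  have h0 : 0 ≤ (q : ℝ) ^ (-(1 / 2 : ℝ)) := Real.rpow_nonneg (Nat.cast_nonneg _) _
  rw [abs_mul, abs_mul, abs_of_nonneg h0, abs_two]
  exact mul_le_of_le_one_right (by positivity) (Real.abs_cos_le_one _)

theorem fac_eq (t : ℝ) (e : ℕ → ℝ) (q : ℕ) : fac 0 t e q = 1 + 1 / (q : ℝ) - e q * cc q t := by
  unfold fac cc
  rw [add_zero, mul_zero, add_zero, Real.rpow_neg (Nat.cast_nonneg q) 1, Real.rpow_one]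
  ring

theorem BC_fac (e : ℕ → ℝ) (q : ℕ) : BC (fun t => fac 0 t e q) := by
  obtain ⟨h1, C, hC⟩ := BC_cc q
  refine ⟨?_, |1 + 1 / (q : ℝ)| + |e q| * C, fun t => ?_⟩
  · simp_rw [fac_eq]
    fun_prop
  · show |fac 0 t e q| ≤ _
    rw [fac_eq]
    refine (abs_sub _ _).trans ?_
    rw [abs_mul]
    have := mul_le_mul_of_nonneg_left (hC t) (abs_nonneg (e q))
    linarith

theorem D_succ_prime {N : ℕ} (h : (N + 1).Prime) (e : ℕ → ℝ) (t : ℝ) :
    D (N + 1) e t = D N e t * fac 0 t e (N + 1) := by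
  unfold D
  rw [pr_succ_prime h, Finset.prod_insert (notMem_pr N), mul_comm]

theorem D_succ_not {N : ℕ} (h : ¬ (N + 1).Prime) (e : ℕ → ℝ) (t : ℝ) :
    D (N + 1) e t = D N e t := by
  unfold D
  rw [pr_succ_not h]

theorem BC_D (N : ℕ) (e : ℕ → ℝ) : BC (D N e) := by
  induction N with
  | zero =>
    have : D 0 e = fun _ => 1 := by
      funext t
      simp [D, pr]
    rw [this]
    exact BC.const 1
  | succ N ih =>
    by_cases h : (N + 1).Prime
    · have : D (N + 1) e = fun t => D N e t * fac 0 t e (N + 1) := by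
        funext t
        exact D_succ_prime h e t
      rw [this]
      exact ih.mul (BC_fac e _)
    · have : D (N + 1) e = D N e := by
        funext t
        exact D_succ_not h e t
      rw [this]
      exact ih

/-- the general integrals -/
noncomputable def I (N : ℕ) (g : ℝ → ℝ) (e : ℕ → ℝ) : ℝ :=
  ∫ t : ℝ, D N e t * g t / (1 / 4 + t ^ 2)

theorem I_zero (g : ℝ → ℝ) (e : ℕ → ℝ) : I 0 g e = ∫ t : ℝ, g t / (1 / 4 + t ^ 2) := by
  unfold I
  congr 1
  funext t
  simp [D, pr]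

theorem I_succ_prime {N : ℕ} (h : (N + 1).Prime) {g : ℝ → ℝ} (hg : BC g) (e : ℕ → ℝ) :
    I (N + 1) g e = (1 + 1 / ((N + 1 : ℕ) : ℝ)) * I N g e -
      e (N + 1) * I N (fun t => cc (N + 1) t * g t) e := by
  unfold I
  rw [← integral_const_mul, ← integral_const_mul, ← integral_sub]
  · congr 1
    funext t
    rw [D_succ_prime h, fac_eq]
    ring
  · exact ((BC_D N e).mul hg).integrable.const_mul _
  · exact ((BC_D N e).mul ((BC_cc (N + 1)).mul hg)).integrable.const_mul _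

theorem I_succ_not {N : ℕ} (h : ¬ (N + 1).Prime) (g : ℝ → ℝ) (e : ℕ → ℝ) :
    I (N + 1) g e = I N g e := by
  unfold I
  simp_rw [D_succ_not h]

theorem J_eq (N : ℕ) (e : ℕ → ℝ) : J N e = 1 / (2 * Real.pi) * I N (fun _ => 1) e := by
  unfold J I
  simp

theorem R_succ_prime {N : ℕ} (h : (N + 1).Prime) :
    R (N + 1) = (1 + 1 / ((N + 1 : ℕ) : ℝ)) * R N := by
  unfold R
  rw [pr_succ_prime h, Finset.prod_insert (notMem_pr N)]

theorem R_succ_not {N : ℕ} (h : ¬ (N + 1).Prime) : R (N + 1) = R N := by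
  unfold R
  rw [pr_succ_not h]

theorem R_pos (N : ℕ) : 0 < R N := Finset.prod_pos fun _ _ => by positivity

theorem fac_nonneg (t : ℝ) {e : ℕ → ℝ} (he : Sgn e) {q : ℕ} (hq : 0 < q) : 0 ≤ fac 0 t e q := by
  unfold fac
  rw [add_zero, mul_zero, add_zero]
  set x : ℝ := (q : ℝ) ^ (-(1 / 2 : ℝ)) with hx
  have hq' : (0 : ℝ) < q := by exact_mod_cast hq
  have h1 : (q : ℝ) ^ (-1 : ℝ) = x ^ 2 := by
    rw [hx, ← Real.rpow_natCast, ← Real.rpow_mul hq'.le]
    norm_num
  rw [h1]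
  have hc := Real.cos_sq_le_one (t * Real.log q)
  have he2 : e q ^ 2 = 1 := by
    rcases he q with h | h <;> rw [h] <;> norm_num
  nlinarith [sq_nonneg (1 - e q * x * Real.cos (t * Real.log q)), sq_nonneg x,
    mul_nonneg (sq_nonneg x) (sub_nonneg.mpr hc)]

theorem D_nonneg (N : ℕ) {e : ℕ → ℝ} (he : Sgn e) (t : ℝ) : 0 ≤ D N e t := by
  refine Finset.prod_nonneg fun q hq => fac_nonneg t he ?_
  exact (mem_filter.mp hq).2.pos

theorem J_nonneg (N : ℕ) {e : ℕ → ℝ} (he : Sgn e) : 0 ≤ J N e := by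
  unfold J
  refine mul_nonneg (by positivity) (integral_nonneg fun t => ?_)
  exact div_nonneg (D_nonneg N he t) (by positivity)

theorem I_bound (N : ℕ) : ∀ g : ℝ → ℝ, BC g → ∃ C : ℝ, ∀ e : ℕ → ℝ, Sgn e → |I N g e| ≤ C := by
  induction N with
  | zero =>
    intro g _
    exact ⟨_, fun e _ => by rw [I_zero]⟩
  | succ N ih =>
    intro g hg
    by_cases h : (N + 1).Prime
    · obtain ⟨C, hC⟩ := ih g hg
      obtain ⟨C', hC'⟩ := ih _ ((BC_cc (N + 1)).mul hg)
      refine ⟨(1 + 1 / ((N + 1 : ℕ) : ℝ)) * C + C', fun e he => ?_⟩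
      rw [I_succ_prime h hg]
      refine (abs_sub _ _).trans ?_
      rw [abs_mul, abs_mul, abs_of_nonneg (by positivity : 0 ≤ 1 + 1 / ((N + 1 : ℕ) : ℝ))]
      have h1 : |e (N + 1)| = 1 := by
        rcases he (N + 1) with h | h <;> rw [h] <;> simp
      rw [h1, one_mul]
      exact add_le_add (mul_le_mul_of_nonneg_left (hC e he) (by positivity)) (hC' e he)
    · obtain ⟨C, hC⟩ := ih g hg
      exact ⟨C, fun e he => by rw [I_succ_not h]; exact hC e he⟩

section prob

variable {Ω : Type} [mΩ : MeasurableSpace Ω] {P : Measure Ω} [IsProbabilityMeasure P]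
  {s : ℕ → Ω → ℝ}

/-- The filtration of the signs. -/
noncomputable def Fl (h : Fair P s) : Filtration ℕ mΩ :=
  Filtration.natural s (fun q => (h.meas q).stronglyMeasurable)

theorem Fl_adapted (h : Fair P s) (N : ℕ) : StronglyMeasurable[Fl h N] (s N) :=
  Filtration.stronglyAdapted_natural (fun q => (h.meas q).stronglyMeasurable) N

theorem I_meas (h : Fair P s) (N : ℕ) : ∀ g : ℝ → ℝ, BC g →
    StronglyMeasurable[Fl h N] (fun ω => I N g (fun q => s q ω)) := by
  induction N with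
  | zero =>
    intro g _
    simp_rw [I_zero]
    exact stronglyMeasurable_const
  | succ N ih =>
    intro g hg
    have hm : Fl h N ≤ Fl h (N + 1) := (Fl h).mono (Nat.le_succ N)
    by_cases hp : (N + 1).Prime
    · simp_rw [I_succ_prime hp hg]
      exact (((ih g hg).mono hm).const_mul _).sub
        ((Fl_adapted h (N + 1)).mul ((ih _ ((BC_cc (N + 1)).mul hg)).mono hm))
    · simp_rw [I_succ_not hp]
      exact (ih g hg).mono hm

theorem sgn_of (h : Fair P s) (ω : Ω) : Sgn (fun q => s q ω) := fun q => h.sgn q ω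

theorem s_bound (h : Fair P s) (q : ℕ) (ω : Ω) : ‖s q ω‖ ≤ 1 := by
  rcases h.sgn q ω with h1 | h1 <;> rw [h1] <;> simp

theorem s_int (h : Fair P s) (q : ℕ) : Integrable (s q) P :=
  Integrable.of_bound (h.meas q).aestronglyMeasurable 1 (ae_of_all _ (s_bound h q))

theorem s_mean (h : Fair P s) (q : ℕ) : ∫ ω, s q ω ∂P = 0 := by
  have h1 : MeasurableSet {ω | s q ω = 1} := (h.meas q) (measurableSet_singleton 1)
  have h2 : MeasurableSet {ω | s q ω = -1} := (h.meas q) (measurableSet_singleton (-1))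
  have h3 : ∀ ω, s q ω = Set.indicator {ω | s q ω = 1} (fun _ => (1 : ℝ)) ω -
      Set.indicator {ω | s q ω = -1} (fun _ => (1 : ℝ)) ω := by
    intro ω
    rcases h.sgn q ω with h4 | h4
    · have h5 : ω ∈ {ω | s q ω = 1} := h4
      have h6 : ω ∉ {ω | s q ω = -1} := by
        intro h7
        have h8 : s q ω = -1 := h7
        rw [h4] at h8
        norm_num at h8
      rw [Set.indicator_of_mem h5, Set.indicator_of_notMem h6, h4]
      norm_num
    · have h5 : ω ∈ {ω | s q ω = -1} := h4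
      have h6 : ω ∉ {ω | s q ω = 1} := by
        intro h7
        have h8 : s q ω = 1 := h7
        rw [h4] at h8
        norm_num at h8
      rw [Set.indicator_of_mem h5, Set.indicator_of_notMem h6, h4]
      norm_num
  have h9 : ∫ ω, s q ω ∂P = ∫ ω, (Set.indicator {ω | s q ω = 1} (fun _ => (1 : ℝ)) ω -
      Set.indicator {ω | s q ω = -1} (fun _ => (1 : ℝ)) ω) ∂P := integral_congr_ae (ae_of_all _ h3)
  rw [h9, integral_sub ((integrable_const _).indicator h1) ((integrable_const _).indicator h2),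
    integral_indicator h1, integral_indicator h2]
  simp [Measure.real, h.one q, h.neg q]

theorem I_int (h : Fair P s) (N : ℕ) {g : ℝ → ℝ} (hg : BC g) :
    Integrable (fun ω => I N g (fun q => s q ω)) P := by
  obtain ⟨C, hC⟩ := I_bound N g hg
  exact Integrable.of_bound ((I_meas h N g hg).mono ((Fl h).le N)).aestronglyMeasurable C
    (ae_of_all _ fun ω => hC _ (sgn_of h ω))

/-- The quotients. -/
noncomputable def W (s : ℕ → Ω → ℝ) (N : ℕ) (ω : Ω) : ℝ := J N (fun q => s q ω) / R N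

theorem W_eq (N : ℕ) (ω : Ω) :
    W s N ω = (1 / (2 * Real.pi) / R N) * I N (fun _ => 1) (fun q => s q ω) := by
  unfold W
  rw [J_eq]
  ring

theorem W_meas (h : Fair P s) (N : ℕ) : StronglyMeasurable[Fl h N] (W s N) := by
  have : W s N = fun ω => (1 / (2 * Real.pi) / R N) * I N (fun _ => 1) (fun q => s q ω) := by
    funext ω
    exact W_eq N ω
  rw [this]
  exact (I_meas h N _ (BC.const 1)).const_mul _

theorem W_int (h : Fair P s) (N : ℕ) : Integrable (W s N) P := by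
  have : W s N = fun ω => (1 / (2 * Real.pi) / R N) * I N (fun _ => 1) (fun q => s q ω) := by
    funext ω
    exact W_eq N ω
  rw [this]
  exact (I_int h N (BC.const 1)).const_mul _

theorem W_nonneg (h : Fair P s) (N : ℕ) (ω : Ω) : 0 ≤ W s N ω :=
  div_nonneg (J_nonneg N (sgn_of h ω)) (R_pos N).le

theorem W_mart (h : Fair P s) : Martingale (W s) (Fl h) P := by
  refine martingale_nat (fun N => W_meas h N) (W_int h) fun N => ?_
  by_cases hp : (N + 1).Prime
  · set c : ℝ := 1 / (2 * Real.pi) / R (N + 1) with hc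
    set Y : Ω → ℝ := fun ω => c * I N (fun t => cc (N + 1) t * 1) (fun q => s q ω) with hY
    have hYm : StronglyMeasurable[Fl h N] Y :=
      (I_meas h N _ ((BC_cc (N + 1)).mul (BC.const 1))).const_mul _
    obtain ⟨C, hC⟩ := I_bound N _ ((BC_cc (N + 1)).mul (BC.const 1))
    have hYb : ∀ ω, ‖Y ω‖ ≤ |c| * C := by
      intro ω
      rw [hY, Real.norm_eq_abs, abs_mul]
      exact mul_le_mul_of_nonneg_left (hC _ (sgn_of h ω)) (abs_nonneg _)
    have h1 : W s (N + 1) = W s N - Y * s (N + 1) := by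
      funext ω
      rw [Pi.sub_apply, Pi.mul_apply, W_eq, W_eq, I_succ_prime hp (BC.const 1), hY, hc,
        R_succ_prime hp]
      have h2 : R N ≠ 0 := (R_pos N).ne'
      have h3 : (1 + 1 / ((N + 1 : ℕ) : ℝ)) ≠ 0 := by positivity
      have h4 : Real.pi ≠ 0 := Real.pi_ne_zero
      field_simp
    have h5 : P[Y * s (N + 1) | Fl h N] =ᵐ[P] Y * P[s (N + 1) | Fl h N] :=
      condExp_stronglyMeasurable_mul_of_bound ((Fl h).le N) hYm (s_int h (N + 1)) (|c| * C)
        (ae_of_all _ hYb)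
    have h6 : P[s (N + 1) | Fl h N] =ᵐ[P] fun _ => P[s (N + 1)] :=
      h.ind.condExp_natural_ae_eq_of_lt (fun q => (h.meas q).stronglyMeasurable) (Nat.lt_succ_self N)
    have h7 : Integrable (Y * s (N + 1)) P := by
      refine Integrable.of_bound
        (((hYm.mono ((Fl h).le N)).aestronglyMeasurable).mul (h.meas _).aestronglyMeasurable)
        (|c| * C) (ae_of_all _ fun ω => ?_)
      rw [Pi.mul_apply, norm_mul]
      calc ‖Y ω‖ * ‖s (N + 1) ω‖ ≤ ‖Y ω‖ * 1 :=
            mul_le_mul_of_nonneg_left (s_bound h _ ω) (norm_nonneg _)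
        _ ≤ |c| * C := by rw [mul_one]; exact hYb ω
    have h8 : P[W s (N + 1) | Fl h N] =ᵐ[P] P[W s N | Fl h N] - P[Y * s (N + 1) | Fl h N] := by
      rw [h1]
      exact condExp_sub (W_int h N) h7 _
    have h9 : P[W s N | Fl h N] = W s N :=
      condExp_of_stronglyMeasurable ((Fl h).le N) (W_meas h N) (W_int h N)
    filter_upwards [h5, h6, h8] with ω g5 g6 g8
    rw [g8, Pi.sub_apply, g5, Pi.mul_apply, g6, s_mean h, mul_zero, sub_zero, h9]
  · have h1 : W s (N + 1) = W s N := by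
      funext ω
      rw [W_eq, W_eq, I_succ_not hp, R_succ_not hp]
    rw [h1, condExp_of_stronglyMeasurable ((Fl h).le N) (W_meas h N) (W_int h N)]

theorem J_measurable (h : Fair P s) (N : ℕ) : Measurable (fun ω => J N (fun q => s q ω)) := by
  simp_rw [J_eq]
  exact (((I_meas h N _ (BC.const 1)).mono ((Fl h).le N)).const_mul _).measurable

theorem low_meas (h : Fair P s) (K : ℝ) (N : ℕ) :
    MeasurableSet {ω | Low K N (fun q => s q ω)} := by
  have : {ω | Low K N (fun q => s q ω)} =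
      ⋂ j : ℕ, ⋂ _ : j ≤ N, {ω | J j (fun q => s q ω) ≤ K * R j} := by
    ext ω
    simp only [Set.mem_iInter]
    exact Iff.rfl
  rw [this]
  exact MeasurableSet.iInter fun j => MeasurableSet.iInter fun _ =>
    measurableSet_le (J_measurable h j) measurable_const

/-- The truncated quotients. -/
noncomputable def T (s : ℕ → Ω → ℝ) (K : ℝ) (N : ℕ) (ω : Ω) : ℝ :=
  J N (fun q => s q ω) / R N * (if Low K N (fun q => s q ω) then (1 : ℝ) else 0)

theorem T_meas (h : Fair P s) (K : ℝ) (N : ℕ) : Measurable (T s K N) :=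
  ((J_measurable h N).div_const _).mul
    (Measurable.ite (low_meas h K N) measurable_const measurable_const)

theorem T_nonneg (h : Fair P s) (K : ℝ) (N : ℕ) (ω : Ω) : 0 ≤ T s K N ω := by
  unfold T
  refine mul_nonneg (W_nonneg h N ω) ?_
  split_ifs <;> norm_num

theorem T_int (h : Fair P s) (K : ℝ) (N : ℕ) : Integrable (T s K N) P := by
  refine Integrable.mono' (W_int h N) (T_meas h K N).aestronglyMeasurable (ae_of_all _ fun ω => ?_)
  rw [Real.norm_eq_abs, abs_of_nonneg (T_nonneg h K N ω)]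
  have h1 := W_nonneg h N ω
  unfold T
  unfold W at h1 ⊢
  split_ifs
  · rw [mul_one]
  · rw [mul_zero]
    exact h1

theorem fatou (h : Fair P s) (K : ℝ)
    (hT : Tendsto (fun N => ∫ ω, T s K N ω ∂P) atTop (𝓝 0)) :
    ∀ᵐ ω ∂P, liminf (fun N => ENNReal.ofReal (T s K N ω)) atTop = 0 := by
  have h1 : ∫⁻ ω, liminf (fun N => ENNReal.ofReal (T s K N ω)) atTop ∂P ≤
      liminf (fun N => ∫⁻ ω, ENNReal.ofReal (T s K N ω) ∂P) atTop :=
    lintegral_liminf_le fun N => (T_meas h K N).ennreal_ofReal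
  have h2 : (fun N => ∫⁻ ω, ENNReal.ofReal (T s K N ω) ∂P) =
      fun N => ENNReal.ofReal (∫ ω, T s K N ω ∂P) := by
    funext N
    rw [ofReal_integral_eq_lintegral_ofReal (T_int h K N) (ae_of_all _ (T_nonneg h K N))]
  have h3 : Tendsto (fun N => ENNReal.ofReal (∫ ω, T s K N ω ∂P)) atTop (𝓝 0) := by
    have := (ENNReal.continuous_ofReal.tendsto 0).comp hT
    rwa [ENNReal.ofReal_zero] at this
  rw [h2, h3.liminf_eq] at h1
  have h4 : ∫⁻ ω, liminf (fun N => ENNReal.ofReal (T s K N ω)) atTop ∂P = 0 := le_antisymm h1 bot_le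
  rw [lintegral_eq_zero_iff (Measurable.liminf fun N => (T_meas h K N).ennreal_ofReal)] at h4
  exact h4

end prob

/-- The package MG. -/
theorem mg : S_MG := by
  intro Ω _ P _ s h hlow
  have hmean : ∀ n, ∫ ω, W s n ω ∂P = ∫ ω, W s 0 ω ∂P := by
    intro n
    have := (W_mart h).setIntegral_eq (Nat.zero_le n) MeasurableSet.univ
    rw [setIntegral_univ, setIntegral_univ] at this
    exact this.symm
  have hbdd : ∀ n, eLpNorm (W s n) 1 P ≤ ((∫ ω, W s 0 ω ∂P).toNNReal : ℝ≥0∞) := by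
    intro n
    rw [eLpNorm_one_eq_lintegral_enorm]
    have h1 : ∀ ω, ‖W s n ω‖ₑ = ENNReal.ofReal (W s n ω) := fun ω =>
      Real.enorm_of_nonneg (W_nonneg h n ω)
    simp_rw [h1]
    rw [← ofReal_integral_eq_lintegral_ofReal (W_int h n) (ae_of_all _ (W_nonneg h n)), hmean n]
    exact le_rfl
  have hconv := (W_mart h).submartingale.ae_tendsto_limitProcess hbdd
  have hfat : ∀ᵐ ω ∂P, ∀ K : ℕ, liminf (fun N => ENNReal.ofReal (T s (K : ℝ) N ω)) atTop = 0 :=
    ae_all_iff.mpr fun K => fatou h K (hlow K)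
  filter_upwards [hconv, hfat] with ω h1 h2
  set L : ℝ := (Fl h).limitProcess (W s) P ω with hL
  obtain ⟨B, hB⟩ := h1.bddAbove_range
  obtain ⟨K, hK⟩ := exists_nat_ge B
  have hW : ∀ N, W s N ω ≤ K := fun N => (hB ⟨N, rfl⟩).trans hK
  have hLow : ∀ N, Low K N (fun q => s q ω) := by
    intro N j _
    have := hW j
    unfold W at this
    rwa [div_le_iff₀ (R_pos j)] at this
  have h3 : ∀ N, T s (K : ℝ) N ω = W s N ω := by
    intro N
    unfold T W
    rw [if_pos (hLow N), mul_one]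
  have h4 := h2 K
  simp_rw [h3] at h4
  have h5 : Tendsto (fun N => ENNReal.ofReal (W s N ω)) atTop (𝓝 (ENNReal.ofReal L)) :=
    (ENNReal.continuous_ofReal.tendsto L).comp h1
  rw [h5.liminf_eq, ENNReal.ofReal_eq_zero] at h4
  have h6 : 0 ≤ L := ge_of_tendsto' h1 fun N => W_nonneg h N ω
  have h7 : L = 0 := le_antisymm h4 h6
  rw [h7] at h1
  exact h1

end Pool.Agent.P8H75.RM
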